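import Pool.Agent.Helper36.Pin.Defs3

/-!
# The explicit instance of linear matroid parity over an arbitrary field
-/

namespace Pool.Agent.Helper36.PinK

open Finset Module
open Pool.Agent.Helper36.Pin hiding single gvec vec parityNumber

variable {V : Type} [Fintype V] [DecidableEq V] {K : Type} [Field K]

/-- The unit vector. -/
def single {m : Type} [DecidableEq m] (x : m) : m → K := fun y => if y = x then 1 else 0

/-- The vector of the generator `g` at the vertex `v`; `t v` is the parameter of `v`. -/
def gvec (G : SimpleGraph V) (t : V → K) (v : V) : Gen G → Coord G → K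
  | Sum.inl (g, g') => single (Sum.inl g) - single (Sum.inl g')
  | Sum.inr (X, i) =>
      single (Sum.inr (Sum.inl (X, i, 0))) + t v • single (Sum.inr (Sum.inl (X, i, 1)))

/-- The two vectors which span a line. -/
def vec (G : SimpleGraph V) (t : V → K) (c : Gen G → K) : Line G → Fin 2 → Coord G → K
  | Sum.inl (v, g) => ![gvec G t v g,
      single (Sum.inr (Sum.inr (v, 0))) + c g • single (Sum.inr (Sum.inr (v, 1)))]
  | Sum.inr v => ![single (Sum.inr (Sum.inr (v, 0))), single (Sum.inr (Sum.inr (v, 1)))]

open Classical in
/-- The parity number of a finite family of lines `⟨a i 0, a i 1⟩`. -/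
noncomputable def parityNumber {ι m : Type} (L : Finset ι) (a : ι → Fin 2 → m → K) : ℕ :=
  (L.powerset.filter (fun Z : Finset ι =>
    LinearIndependent K (fun i : Z × Fin 2 => a i.1 i.2))).sup
    Finset.card

end Pool.Agent.Helper36.PinK
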