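import Pool.Agent.Helper36.PinK.H1
import Pool.Agent.Helper36.PinK.H2
import Pool.Agent.Helper36.Pin.Main2

/-!
# The pinning number and linear matroid parity over an arbitrary field
-/

set_option autoImplicit false

namespace Pool.Agent.Helper36.PinK

open Finset Module
open Pool.Agent.Helper36.Pin hiding single gvec vec parityNumber pin_parity feasA_fill_iff
  parity_eq_of

variable {V : Type} [Fintype V] [DecidableEq V] {K : Type} [Field K]

theorem parity_eq (G : SimpleGraph V) (t : V → K) (ht : Function.Injective t) (c : Gen G → K)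
    (hc : Function.Injective c) (U : Finset V) (ν : ℕ)
    (hν : IsGreatest {k | ∃ Z ⊆ U, FeasA (fill G) Z ∧ Z.card = k} ν) :
    parityNumber (lines G U) (vec G t c) = U.card + ν :=
  PinK.parity_eq_of G t c hc U (FeasA (fill G)) (PinK.feasA_fill_iff G t ht) ν hν

theorem pin_parity (G : SimpleGraph V) (hV : 4 ≤ Fintype.card V)
    (h3 : ¬ ∃ P : Finset V, P.card = 3 ∧ Pins G P) (P₀ : Finset V) (hP₀ : Complete G P₀)
    (t : V → K) (c : Gen G → K) (ht : Function.Injective t) (hc : Function.Injective c) :
    pin G = max 4 (Fintype.card V + (P₀ᶜ).card - parityNumber (lines G P₀ᶜ) (vec G t c)) := by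
  obtain ⟨ν, hν⟩ := exists_optimum_fill G P₀ᶜ
  rw [pin_fill G hV P₀ hP₀ h3 ν hν, PinK.parity_eq G t ht c hc P₀ᶜ ν hν]
  congr 1
  omega

end Pool.Agent.Helper36.PinK
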