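import Pool.Agent.Helper36.PinK.F
import Pool.Agent.Helper97.Pin.G1
import Pool.Agent.Helper42.Pin.G2
import Pool.Agent.Helper22.Pin.QB

/-! # PQ-H1: the rank condition for the filled graph and the choice of two generators -/

namespace Pool.Agent.Helper36.PinK

open Finset Module
open Pool.Agent.Helper36.Pin hiding single gvec vec parityNumber 

variable {K : Type} [Field K]


variable {V : Type} [Fintype V] [DecidableEq V]

/-- the generators of the flat of the vertex `v` -/
def h1Set (G : SimpleGraph V) (t : V → K) (v : V) : Set (Coord G → K) :=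
  {x | (∃ g, At0 G v g ∧ x = single (Sum.inl g)) ∨
    (∃ X i, At G v (Sum.inr (X, i)) ∧ x = gvec G t v (Sum.inr (X, i)))}

/-- the flat of the vertex `v` -/
noncomputable def h1A (G : SimpleGraph V) (t : V → K) (v : V) : Submodule K (Coord G → K) :=
  Submodule.span K (h1Set G t v)

/-- the section of the flat -/
noncomputable def h1K (G : SimpleGraph V) (t : V → K) (v : V) : Submodule K (Coord G → K) :=
  Submodule.span K {x | ∃ g, At G v g ∧ x = gvec G t v g}

/-- the sum of the first coordinates -/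
noncomputable def h1h (G : SimpleGraph V) : (Coord G → K) →ₗ[K] K :=
  ∑ g : Gen0 G, LinearMap.proj (Sum.inl g)

theorem h1h_apply (G : SimpleGraph V) (x : Coord G → K) :
    h1h G x = ∑ g : Gen0 G, x (Sum.inl g) := by
  simp [h1h]

theorem h1h_single (G : SimpleGraph V) (g : Gen0 G) :
    h1h (K := K) G (single (Sum.inl g)) = 1 := by
  classical
  rw [h1h_apply, Finset.sum_eq_single g]
  · simp [single]
  · intro b _ hb
    simp [single, hb]
  · intro h; exact absurd (mem_univ g) h

theorem h1h_gvec (G : SimpleGraph V) (t : V → K) (v : V) (g : Gen G) :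
    h1h G (gvec G t v g) = 0 := by
  classical
  rcases g with ⟨g, g'⟩ | ⟨X, i⟩
  · show h1h G (single (Sum.inl g) - single (Sum.inl g')) = 0
    rw [map_sub, h1h_single, h1h_single, sub_self]
  · rw [h1h_apply]
    refine Finset.sum_eq_zero fun b _ => ?_
    simp [gvec, single]

theorem h1_sup (G : SimpleGraph V) (t : V → K) (S : Finset V) :
    S.sup (h1A G t) = Submodule.span K {x : Coord G → K | ∃ v ∈ S,
        (∃ g, At0 G v g ∧ x = single (Sum.inl g)) ∨
        (∃ X i, At G v (Sum.inr (X, i)) ∧ x = gvec G t v (Sum.inr (X, i)))} := by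
  apply le_antisymm
  · refine Finset.sup_le fun v hv => Submodule.span_mono fun x hx => ⟨v, hv, hx⟩
  · rw [Submodule.span_le]
    rintro x ⟨v, hv, hx⟩
    exact (Finset.le_sup (f := h1A G t) hv) (Submodule.subset_span hx)

theorem h1_finrank (G : SimpleGraph V) (t : V → K) (ht : Function.Injective t) (S : Finset V) :
    finrank K (S.sup (h1A G t) : Submodule K (Coord G → K)) = rk (inc (fill G) S) := by
  rw [h1_sup, finrank_flat G t ht S, rk_inc_fill]

theorem h1_single_mem (G : SimpleGraph V) (t : V → K) {v : V} {g : Gen0 G} (hg : At0 G v g) :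
    single (Sum.inl g) ∈ h1A G t v := Submodule.subset_span (Or.inl ⟨g, hg, rfl⟩)

theorem h1_gvec_mem (G : SimpleGraph V) (t : V → K) {v : V} {g : Gen G} (hg : At G v g) :
    gvec G t v g ∈ h1A G t v := by
  rcases g with ⟨g, g'⟩ | ⟨X, i⟩
  · exact Submodule.sub_mem _ (h1_single_mem G t hg.1) (h1_single_mem G t hg.2)
  · exact Submodule.subset_span (Or.inr ⟨X, i, hg, rfl⟩)

theorem h1_at0_of_at (G : SimpleGraph V) {v : V} {g : Gen G} (hg : At G v g) :
    ∃ g₀ : Gen0 G, At0 G v g₀ := by
  rcases g with ⟨g, g'⟩ | ⟨X, i⟩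
  · exact ⟨g, hg.1⟩
  · exact ⟨Sum.inr X, hg.1⟩

theorem h1_inf (G : SimpleGraph V) (t : V → K) (v : V) :
    h1A G t v ⊓ LinearMap.ker (h1h G) = h1K G t v := by
  apply le_antisymm
  · rintro x ⟨hx, hk⟩
    rw [SetLike.mem_coe, LinearMap.mem_ker] at hk
    by_cases h0 : ∃ g₀ : Gen0 G, At0 G v g₀
    · obtain ⟨g₀, hg₀⟩ := h0
      have key : ∀ x ∈ h1A G t v, x - h1h G x • single (Sum.inl g₀) ∈ h1K G t v := by
        intro x hx
        induction hx using Submodule.span_induction with
        | mem x hx =>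
          rcases hx with ⟨g, hg, rfl⟩ | ⟨X, i, hXi, rfl⟩
          · rw [h1h_single, one_smul]
            exact Submodule.subset_span ⟨Sum.inl (g, g₀), ⟨hg, hg₀⟩, rfl⟩
          · rw [h1h_gvec, zero_smul, sub_zero]
            exact Submodule.subset_span ⟨Sum.inr (X, i), hXi, rfl⟩
        | zero => simp
        | add x y _ _ hx hy =>
          have := Submodule.add_mem _ hx hy
          rw [map_add, add_smul]
          convert this using 1
          abel
        | smul a x _ hx =>
          have := Submodule.smul_mem _ a hx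
          rw [map_smul, smul_assoc, ← smul_sub]
          exact this
      have := key x hx
      rwa [hk, zero_smul, sub_zero] at this
    · have hbot : h1A G t v = ⊥ := by
        rw [h1A, Submodule.span_eq_bot]
        rintro y (⟨g, hg, _⟩ | ⟨X, i, hXi, _⟩)
        · exact absurd ⟨g, hg⟩ h0
        · exact absurd (h1_at0_of_at G hXi) h0
      have hx' : x ∈ h1A G t v := hx
      rw [hbot, Submodule.mem_bot] at hx'
      rw [hx']
      exact Submodule.zero_mem _
  · rw [h1K, Submodule.span_le]
    rintro x ⟨g, hg, rfl⟩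
    exact ⟨h1_gvec_mem G t hg, by rw [SetLike.mem_coe, LinearMap.mem_ker]; exact h1h_gvec G t v g⟩

/-- the coordinates at a set of vertices -/
def h1Supp (G : SimpleGraph V) (C : Finset V) : Coord G → Prop
  | Sum.inl g => ∃ v ∈ C, At0 G v g
  | Sum.inr (Sum.inl (X, _, _)) => ∃ v ∈ C, v ∈ X.1
  | Sum.inr (Sum.inr _) => False

theorem h1_supp (G : SimpleGraph V) (t : V → K) (C : Finset V) (x : Coord G → K)
    (hx : x ∈ C.sup (h1A G t)) (c : Coord G) (hc : ¬ h1Supp G C c) : x c = 0 := by
  classical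
  have hle : C.sup (h1A G t) ≤ LinearMap.ker (LinearMap.proj c : (Coord G → K) →ₗ[K] K) := by
    refine Finset.sup_le fun v hv => ?_
    rw [h1A, Submodule.span_le]
    rintro y (⟨g, hg, rfl⟩ | ⟨X, i, hXi, rfl⟩)
    · show single (Sum.inl g) c = 0
      by_cases hcg : c = Sum.inl g
      · subst hcg
        exact absurd ⟨v, hv, hg⟩ hc
      · simp [single, hcg]
    · show gvec G t v (Sum.inr (X, i)) c = 0
      have h0 : c ≠ Sum.inr (Sum.inl (X, i, 0)) := by
        rintro rfl; exact hc ⟨v, hv, hXi.1⟩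
      have h1 : c ≠ Sum.inr (Sum.inl (X, i, 1)) := by
        rintro rfl; exact hc ⟨v, hv, hXi.1⟩
      simp [gvec, single, h0, h1]
  exact hle hx

theorem h1_disjoint (G : SimpleGraph V) (t : V → K) (C D : Finset V)
    (h : ∀ i ∈ C, ∀ j ∈ D, h1A G t i ⊓ h1A G t j ≤ LinearMap.ker (h1h G)) :
    Disjoint (C.sup (h1A G t)) (D.sup (h1A G t)) := by
  have hno : ∀ i ∈ C, ∀ j ∈ D, ∀ g, At0 G i g → At0 G j g → False := by
    intro i hi j hj g h1 h2
    have h3 := h i hi j hj ⟨h1_single_mem G t h1, h1_single_mem G t h2⟩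
    rw [LinearMap.mem_ker, h1h_single] at h3
    exact one_ne_zero h3
  rw [Submodule.disjoint_def]
  intro x hC hD
  funext c
  by_cases hc : h1Supp G C c
  · by_cases hd : h1Supp G D c
    · exfalso
      rcases c with g | ⟨X, i, j⟩ | c
      · obtain ⟨v, hv, hv'⟩ := hc
        obtain ⟨w, hw, hw'⟩ := hd
        exact hno v hv w hw g hv' hw'
      · obtain ⟨v, hv, hv'⟩ := hc
        obtain ⟨w, hw, hw'⟩ := hd
        exact hno v hv w hw (Sum.inr X) hv' hw'
      · exact hc
    · exact h1_supp G t D x hD c hd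
  · exact h1_supp G t C x hC c hc

theorem feasA_fill_iff (G : SimpleGraph V) (t : V → K) (ht : Function.Injective t)
    (Z : Finset V) :
    FeasA (fill G) Z ↔ ∃ y : V → Fin 2 → Gen G, (∀ v ∈ Z, ∀ j, At G v (y v j)) ∧
      LinearIndependent K (fun i : Z × Fin 2 => gvec G t i.1 (y i.1 i.2)) := by
  classical
  constructor
  · intro hF
    have hZ : ∀ S ⊆ Z, S.Nonempty → 2 * S.card + 1 ≤
        finrank K (S.sup (h1A G t) : Submodule K (Coord G → K)) := by
      intro S hS hne
      rw [h1_finrank G t ht]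
      exact hF S hS hne
    have hH := hyper_rank (h1A G t) (h1h G) Z (fun C D _ _ h => h1_disjoint G t C D h) hZ
    let B : V × Fin 2 → Finset (Coord G → K) := fun i =>
      (Finset.univ.filter (fun g : Gen G => At G i.1 g)).image (gvec G t i.1)
    have hspan : ∀ J : Finset (V × Fin 2),
        (J.image Prod.fst).sup (fun i => h1A G t i ⊓ LinearMap.ker (h1h G)) ≤
          Submodule.span K (⋃ i ∈ J, (B i : Set (Coord G → K))) := by
      intro J
      refine Finset.sup_le fun v hv => ?_
      obtain ⟨i, hi, rfl⟩ := Finset.mem_image.1 hv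
      rw [h1_inf, h1K]
      refine Submodule.span_mono ?_
      rintro x ⟨g, hg, rfl⟩
      simp only [Set.mem_iUnion]
      refine ⟨i, hi, ?_⟩
      simp only [B, Finset.coe_image, Set.mem_image, Finset.coe_filter, Finset.mem_univ, true_and,
        Set.mem_ofPred_eq]
      exact ⟨g, hg, rfl⟩
    obtain ⟨y', hy', hli⟩ := rado (K := K) (W := Coord G → K) (ι := V × Fin 2)
      (Z ×ˢ Finset.univ) B (by
        intro J hJ
        have h1 : J.card ≤ 2 * (J.image Prod.fst).card := by
          have h2 : J ⊆ (J.image Prod.fst) ×ˢ (Finset.univ : Finset (Fin 2)) := by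
            intro i hi
            exact Finset.mem_product.2 ⟨Finset.mem_image_of_mem _ hi, Finset.mem_univ _⟩
          have h3 := Finset.card_le_card h2
          rw [Finset.card_product, Finset.card_univ, Fintype.card_fin] at h3
          linarith
        have h4 : J.image Prod.fst ⊆ Z := by
          intro v hv
          obtain ⟨i, hi, rfl⟩ := Finset.mem_image.1 hv
          exact (Finset.mem_product.1 (hJ hi)).1
        exact (h1.trans (hH _ h4)).trans (Submodule.finrank_mono (hspan J)))
    have hch : ∀ v : V, ∀ j : Fin 2, ∃ g : Gen G, v ∈ Z → At G v g ∧ gvec G t v g = y' (v, j) := by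
      intro v j
      by_cases hv : v ∈ Z
      · have h1 := hy' (v, j) (Finset.mem_product.2 ⟨hv, Finset.mem_univ _⟩)
        obtain ⟨g, hg, hg'⟩ := Finset.mem_image.1 h1
        exact ⟨g, fun _ => ⟨(Finset.mem_filter.1 hg).2, hg'⟩⟩
      · exact ⟨Sum.inl (Sum.inl s(v, v), Sum.inl s(v, v)), fun h => absurd h hv⟩
    choose y hy using hch
    refine ⟨y, fun v hv j => (hy v j hv).1, ?_⟩
    have hcomp := hli.comp (fun i : Z × Fin 2 =>
      (⟨(i.1.1, i.2), Finset.mem_product.2 ⟨i.1.2, Finset.mem_univ _⟩⟩ :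
        ((Z ×ˢ Finset.univ : Finset (V × Fin 2)) : Type))) (by
        rintro ⟨⟨a, ha⟩, j⟩ ⟨⟨b, hb⟩, k⟩ hab
        simp only [Subtype.mk.injEq, Prod.mk.injEq] at hab
        obtain ⟨rfl, rfl⟩ := hab
        rfl)
    have heq : (fun i : Z × Fin 2 => gvec G t i.1 (y i.1 i.2)) = (fun i : Z × Fin 2 =>
        y' (i.1.1, i.2)) := funext fun i => (hy i.1 i.2 i.1.2).2
    rw [heq]
    exact hcomp
  · rintro ⟨y, hy, hli⟩ S hS hne
    rw [← h1_finrank G t ht]
    set W' : Submodule K (Coord G → K) := S.sup (h1A G t) ⊓ LinearMap.ker (h1h G) with hW'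
    have hmem : ∀ i : S × Fin 2, gvec G t i.1 (y i.1 i.2) ∈ W' := by
      intro i
      have hAt := hy i.1 (hS i.1.2) i.2
      refine ⟨(Finset.le_sup (f := h1A G t) i.1.2) (h1_gvec_mem G t hAt), ?_⟩
      rw [SetLike.mem_coe, LinearMap.mem_ker]
      exact h1h_gvec G t _ _
    have hli' : LinearIndependent K (fun i : S × Fin 2 => gvec G t i.1 (y i.1 i.2)) := by
      have := hli.comp (fun i : S × Fin 2 => ((⟨i.1.1, hS i.1.2⟩ : Z), i.2)) (by
        rintro ⟨⟨a, ha⟩, j⟩ ⟨⟨b, hb⟩, k⟩ hab
        simp only [Subtype.mk.injEq, Prod.mk.injEq] at hab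
        obtain ⟨rfl, rfl⟩ := hab
        rfl)
      exact this
    have hcard : 2 * S.card ≤ finrank K W' := by
      have h1 : LinearIndependent K (fun i : S × Fin 2 =>
          (⟨gvec G t i.1 (y i.1 i.2), hmem i⟩ : W')) := by
        apply LinearIndependent.of_comp W'.subtype
        exact hli'
      have h2 := h1.fintype_card_le_finrank
      rw [Fintype.card_prod, Fintype.card_coe, Fintype.card_fin] at h2
      linarith
    have hlt : W' < S.sup (h1A G t) := by
      refine lt_of_le_of_ne inf_le_left fun heq => ?_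
      obtain ⟨v, hv⟩ := hne
      obtain ⟨g₀, hg₀⟩ := h1_at0_of_at G (hy v (hS hv) 0)
      have h3 : single (Sum.inl g₀) ∈ S.sup (h1A G t) :=
        (Finset.le_sup (f := h1A G t) hv) (h1_single_mem G t hg₀)
      rw [← heq] at h3
      have h4 := h3.2
      rw [SetLike.mem_coe, LinearMap.mem_ker, h1h_single] at h4
      exact one_ne_zero h4
    have := Submodule.finrank_lt_finrank_of_lt hlt
    omega

end Pool.Agent.Helper36.PinK
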